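import Mathlib

/-!
# MP_e42d43_lc: idempotent and additive filters without choice

The question is about ZF, so the theorem is stated relative to an arbitrary pair `R`, `M` (the
subsets of `ℕ = {1, 2, …}` and the families of subsets which belong to a model), of which
only closure under explicit operations is assumed (`World`).

Proof. Let `F` be a filter on `ℕ` all of whose members are infinite. For a set `X` of places let `S X`
be the set of all `n` whose binary digits `1` are all at places in `X`. The filter `star F` generated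
by the sets `S (X ∩ (k, ∞))`, `X ∈ F`, is idempotent: if `n ∈ S (X ∩ (k, ∞))` and all digits of
`m ∈ S (X ∩ (k, ∞))` are above those of `n`, then `m + n ∈ S (X ∩ (k, ∞))`. If `U` is an ultrafilter
that contains `star F`, then its image under `n ↦ low n`, the place of the lowest digit `1` of `n`, is
an ultrafilter that contains `F`, as `low` maps `S X` into `X`.
-/

set_option autoImplicit false

namespace Pool.Agent.H74.IF

/-- `A - n = {m : m + n ∈ A}`. -/
def sh (A : Set ℕ+) (n : ℕ+) : Set ℕ+ := {m | m + n ∈ A}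

/-- `F` is a filter on `ℕ`, with respect to the sets in `R`. -/
structure IsFilterIn (R F : Set (Set ℕ+)) : Prop where
  sub : F ⊆ R
  univ_mem : Set.univ ∈ F
  inter_mem : ∀ A ∈ F, ∀ B ∈ F, A ∩ B ∈ F
  up : ∀ A ∈ F, ∀ B ∈ R, A ⊆ B → B ∈ F
  empty_notMem : ∅ ∉ F

/-- `U` is an ultrafilter on `ℕ`, with respect to the sets in `R`. -/
def IsUltraIn (R U : Set (Set ℕ+)) : Prop := IsFilterIn R U ∧ ∀ A ∈ R, A ∈ U ∨ Aᶜ ∈ U

/-- The pseudo-sum: `A ∈ F ⊕ G` if and only if `{n | A - n ∈ G} ∈ F`. -/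
def psum (R F G : Set (Set ℕ+)) : Set (Set ℕ+) := {A | A ∈ R ∧ {n | sh A n ∈ G} ∈ F}

/-- The positive integers whose binary digits `1` are all at places in `X`; the place of the digit
of `2 ^ i` is `i + 1`. -/
def S (X : Set ℕ+) : Set ℕ+ := {n | ∀ i : ℕ, (n : ℕ).testBit i = true → i.succPNat ∈ X}

theorem exists_bit (n : ℕ+) : ∃ i : ℕ, (n : ℕ).testBit i = true := by
  by_contra h
  push Not at h
  have h0 : (n : ℕ) = 0 := Nat.eq_of_testBit_eq fun i => by
    rw [Nat.zero_testBit]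
    simpa using h i
  exact n.ne_zero h0

/-- The place of the lowest binary digit `1` of `n`. -/
def low (n : ℕ+) : ℕ+ := (Nat.find (exists_bit n)).succPNat

/-- The filter generated by the sets `S (X ∩ (k, ∞))` with `X ∈ F`. -/
def star (R F : Set (Set ℕ+)) : Set (Set ℕ+) :=
  {A | A ∈ R ∧ ∃ X ∈ F, ∃ k : ℕ+, S (X ∩ Set.Ioi k) ⊆ A}

/-- The image of `U` under `low`. -/
def push (R U : Set (Set ℕ+)) : Set (Set ℕ+) := {X | X ∈ R ∧ low ⁻¹' X ∈ U}

/-- The closure properties of the class `R` of sets and the class `M` of families of sets that are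
used. They hold for the subsets of `ℕ` and the families of such subsets in a transitive model of
ZF, and for the classes of all sets and families. -/
structure World (R : Set (Set ℕ+)) (M : Set (Set (Set ℕ+))) : Prop where
  compl : ∀ A ∈ R, Aᶜ ∈ R
  inter : ∀ A ∈ R, ∀ B ∈ R, A ∩ B ∈ R
  shift : ∀ A ∈ R, ∀ n, sh A n ∈ R
  digits : ∀ X ∈ R, S X ∈ R
  lowest : ∀ X ∈ R, low ⁻¹' X ∈ R
  slice : ∀ A ∈ R, ∀ G ∈ M, {n | sh A n ∈ G} ∈ R
  principal : ∀ a : ℕ+, {A | A ∈ R ∧ a ∈ A} ∈ M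
  star_mem : ∀ F ∈ M, star R F ∈ M
  push_mem : ∀ U ∈ M, push R U ∈ M

theorem world_univ : World Set.univ Set.univ :=
  ⟨fun _ _ => trivial, fun _ _ _ _ => trivial, fun _ _ _ => trivial, fun _ _ => trivial,
    fun _ _ => trivial, fun _ _ _ _ => trivial, fun _ => trivial, fun _ _ => trivial,
    fun _ _ => trivial⟩

theorem S_mono {X Y : Set ℕ+} (h : X ⊆ Y) : S X ⊆ S Y := fun _ hn i hi => h (hn i hi)

theorem low_mem {X : Set ℕ+} {n : ℕ+} (hn : n ∈ S X) : low n ∈ X := hn _ (Nat.find_spec (exists_bit n))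

theorem S_nonempty {X : Set ℕ+} {a : ℕ+} (ha : a ∈ X) : (S X).Nonempty := by
  refine ⟨⟨2 ^ a.natPred, by positivity⟩, fun i hi => ?_⟩
  rw [PNat.mk_coe, Nat.testBit_two_pow] at hi
  have h : a.natPred = i := by simpa using hi
  rw [← h, PNat.succPNat_natPred]
  exact ha

/-- Adding a number with higher digits. -/
theorem add_mem {X : Set ℕ+} {k : ℕ+} {m n : ℕ+} (hn : n ∈ S (X ∩ Set.Ioi k))
    (hm : m ∈ S (X ∩ Set.Ioi (max k n))) : m + n ∈ S (X ∩ Set.Ioi k) := by
  have hdvd : (2 : ℕ) ^ (n : ℕ) ∣ (m : ℕ) := by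
    rw [Nat.dvd_iff_mod_eq_zero]
    refine Nat.eq_of_testBit_eq fun j => ?_
    rw [Nat.testBit_mod_two_pow, Nat.zero_testBit]
    by_cases hj : j < (n : ℕ)
    · by_contra hb
      have h1 : (m : ℕ).testBit j = true := by
        cases h : (m : ℕ).testBit j
        · simp [h] at hb
        · rfl
      have h2 := (hm j h1).2
      rw [Set.mem_Ioi, max_lt_iff] at h2
      have h3 : (n : ℕ) < j + 1 := by
        have := h2.2
        rw [← PNat.coe_lt_coe, Nat.succPNat_coe] at this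
        exact this
      omega
    · simp [hj]
  obtain ⟨a, ha⟩ := hdvd
  have hlt : (n : ℕ) < 2 ^ (n : ℕ) := Nat.lt_two_pow_self
  intro i hi
  rw [PNat.add_coe, ha, Nat.testBit_two_pow_mul_add a hlt i] at hi
  split_ifs at hi with h
  · exact hn i hi
  · have h1 : (m : ℕ).testBit i = true := by
      have h2 := Nat.testBit_two_pow_mul_add a (b := 0) (i := (n : ℕ)) (by positivity) i
      rw [add_zero, if_neg h] at h2
      rw [ha, h2]
      exact hi
    have h2 := hm i h1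
    refine ⟨h2.1, ?_⟩
    have h3 := h2.2
    rw [Set.mem_Ioi, max_lt_iff] at h3
    exact h3.1

/-- Let `R`, `M` be closed under the operations listed in `World`. If every idempotent filter in `M`
is contained in an ultrafilter in `M` (for instance in an idempotent one, statement (b)), then every
filter in `M` is contained in an ultrafilter in `M`. -/
theorem ut (R : Set (Set ℕ+)) (M : Set (Set (Set ℕ+))) (hW : World R M)
    (hb : ∀ F ∈ M, IsFilterIn R F → F ⊆ psum R F F → ∃ U ∈ M, IsUltraIn R U ∧ F ⊆ U) :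
    ∀ F ∈ M, IsFilterIn R F → ∃ U ∈ M, IsUltraIn R U ∧ F ⊆ U := by
  classical
  intro F hFM hF
  have huniv : Set.univ ∈ R := hF.sub hF.univ_mem
  by_cases hfin : ∃ n : ℕ, ∃ A ∈ F, A.Finite ∧ A.ncard = n
  · -- a finite member: a principal ultrafilter
    obtain ⟨A, hAF, hAfin, hAn⟩ := Nat.find_spec hfin
    have hne : A.Nonempty := by
      rw [Set.nonempty_iff_ne_empty]
      rintro rfl
      exact hF.empty_notMem hAF
    obtain ⟨a, ha⟩ := hne
    refine ⟨_, hW.principal a, ⟨⟨fun B hB => hB.1, ⟨huniv, trivial⟩, ?_, ?_, ?_⟩, ?_⟩, ?_⟩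
    · intro B hB C hC
      exact ⟨hW.inter B hB.1 C hC.1, hB.2, hC.2⟩
    · intro B hB C hC h
      exact ⟨hC, h hB.2⟩
    · intro h
      exact h.2
    · intro B hB
      by_cases h : a ∈ B
      · exact Or.inl ⟨hB, h⟩
      · exact Or.inr ⟨hW.compl B hB, h⟩
    · intro B hB
      refine ⟨hF.sub hB, ?_⟩
      have h1 : A ∩ B ∈ F := hF.inter_mem A hAF B hB
      have h2 : Nat.find hfin ≤ (A ∩ B).ncard :=
        Nat.find_min' hfin ⟨A ∩ B, h1, hAfin.subset Set.inter_subset_left, rfl⟩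
      have h3 : A ∩ B = A :=
        Set.eq_of_subset_of_ncard_le Set.inter_subset_left (by omega) hAfin
      have h4 : a ∈ A ∩ B := by rw [h3]; exact ha
      exact h4.2
  · -- all members infinite
    have hinf : ∀ A ∈ F, A.Infinite := fun A hA h => hfin ⟨_, A, hA, h, rfl⟩
    have hstar : IsFilterIn R (star R F) := by
      refine ⟨fun A hA => hA.1, ⟨huniv, Set.univ, hF.univ_mem, 1, Set.subset_univ _⟩, ?_, ?_, ?_⟩
      · rintro A ⟨hA, X, hX, k, hk⟩ B ⟨hB, Y, hY, l, hl⟩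
        refine ⟨hW.inter A hA B hB, X ∩ Y, hF.inter_mem X hX Y hY, max k l, ?_⟩
        refine Set.subset_inter (fun n hn => hk (S_mono ?_ hn)) (fun n hn => hl (S_mono ?_ hn))
        · rintro i ⟨h1, h2⟩
          exact ⟨h1.1, (le_max_left k l).trans_lt h2⟩
        · rintro i ⟨h1, h2⟩
          exact ⟨h1.2, (le_max_right k l).trans_lt h2⟩
      · rintro A ⟨_, X, hX, k, hk⟩ B hB hAB
        exact ⟨hB, X, hX, k, hk.trans hAB⟩
      · rintro ⟨_, X, hX, k, hk⟩
        obtain ⟨b, hb1, hb2⟩ := (hinf X hX).exists_gt k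
        obtain ⟨n, hn⟩ := S_nonempty (X := X ∩ Set.Ioi k) (a := b) ⟨hb1, hb2⟩
        exact hk hn
    have hidem : star R F ⊆ psum R (star R F) (star R F) := by
      rintro A ⟨hA, X, hX, k, hk⟩
      refine ⟨hA, hW.slice A hA _ (hW.star_mem F hFM), X, hX, k, fun n hn => ?_⟩
      refine ⟨hW.shift A hA n, X, hX, max k n, fun m hm => ?_⟩
      exact hk (add_mem hn hm)
    obtain ⟨U, hUM, ⟨hU, hU2⟩, hsub⟩ := hb _ (hW.star_mem F hFM) hstar hidem
    refine ⟨push R U, hW.push_mem U hUM, ⟨⟨fun X hX => hX.1, ⟨huniv, hU.univ_mem⟩, ?_, ?_, ?_⟩, ?_⟩, ?_⟩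
    · intro X hX Y hY
      exact ⟨hW.inter X hX.1 Y hY.1, hU.inter_mem _ hX.2 _ hY.2⟩
    · intro X hX Y hY h
      exact ⟨hY, hU.up _ hX.2 _ (hW.lowest Y hY) (Set.preimage_mono h)⟩
    · intro h
      exact hU.empty_notMem h.2
    · intro X hX
      rcases hU2 _ (hW.lowest X hX) with h | h
      · exact Or.inl ⟨hX, h⟩
      · exact Or.inr ⟨hW.compl X hX, h⟩
    · intro X hX
      have hXR := hF.sub hX
      refine ⟨hXR, ?_⟩
      have h1 : S X ∈ star R F :=
        ⟨hW.digits X hXR, X, hX, 1, S_mono Set.inter_subset_left⟩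
      exact hU.up _ (hsub h1) _ (hW.lowest X hXR) fun n hn => low_mem hn


/-- `F` is an additive filter: `F ⊆ F ⊕ V` for all ultrafilters `V ⊇ F` in `M`. -/
def IsAdditiveIn (R : Set (Set ℕ+)) (M : Set (Set (Set ℕ+))) (F : Set (Set ℕ+)) : Prop :=
  ∀ V ∈ M, IsUltraIn R V → F ⊆ V → F ⊆ psum R F V

/-- Statement (b) for `R`, `M`: every idempotent filter extends to an idempotent ultrafilter. -/
def StatementB (R : Set (Set ℕ+)) (M : Set (Set (Set ℕ+))) : Prop :=
  ∀ F ∈ M, IsFilterIn R F → F ⊆ psum R F F →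
    ∃ U ∈ M, IsUltraIn R U ∧ psum R U U = U ∧ F ⊆ U

/-- Statement (a) for `R`, `M`: every additive filter extends to an idempotent ultrafilter. -/
def StatementA (R : Set (Set ℕ+)) (M : Set (Set (Set ℕ+))) : Prop :=
  ∀ F ∈ M, IsFilterIn R F → IsAdditiveIn R M F →
    ∃ U ∈ M, IsUltraIn R U ∧ psum R U U = U ∧ F ⊆ U

/-- The family of all sets in `R` that contain a member of `G`. -/
def gen (R G : Set (Set ℕ+)) : Set (Set ℕ+) := {A | A ∈ R ∧ ∃ B ∈ G, B ⊆ A}

/-- `R'`, `M'` is an inner world of `R`, `M`. This holds for the subsets of `ℕ` and the families of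
such subsets in an inner model of ZF. -/
structure Inner (R : Set (Set ℕ+)) (M : Set (Set (Set ℕ+))) (R' : Set (Set ℕ+))
    (M' : Set (Set (Set ℕ+))) : Prop where
  sub : R' ⊆ R
  univ_mem : Set.univ ∈ R'
  compl : ∀ A ∈ R', Aᶜ ∈ R'
  inter : ∀ A ∈ R', ∀ B ∈ R', A ∩ B ∈ R'
  shift : ∀ A ∈ R', ∀ n, sh A n ∈ R'
  slice : ∀ A ∈ R', ∀ G ∈ M', {n | sh A n ∈ G} ∈ R'
  gen_mem : ∀ G ∈ M', gen R G ∈ M

theorem gen_filter {R : Set (Set ℕ+)} {M : Set (Set (Set ℕ+))} {R' : Set (Set ℕ+)}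
    {M' : Set (Set (Set ℕ+))} (hW : World R M) (hI : Inner R M R' M') {V : Set (Set ℕ+)}
    (hV : IsFilterIn R' V) : IsFilterIn R (gen R V) := by
  refine ⟨fun A hA => hA.1, ⟨hI.sub hI.univ_mem, Set.univ, hV.univ_mem, subset_rfl⟩, ?_, ?_, ?_⟩
  · rintro A ⟨hA, B, hB, hBA⟩ C ⟨hC, D, hD, hDC⟩
    exact ⟨hW.inter A hA C hC, B ∩ D, hV.inter_mem B hB D hD, Set.inter_subset_inter hBA hDC⟩
  · rintro A ⟨_, B, hB, hBA⟩ C hC hAC
    exact ⟨hC, B, hB, hBA.trans hAC⟩
  · rintro ⟨_, B, hB, hBA⟩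
    rw [Set.subset_empty_iff] at hBA
    rw [hBA] at hB
    exact hV.empty_notMem hB

/-- Let `R'`, `M'` be an inner world of `R`, `M`, and suppose that (b) holds in `R`, `M` and (a) holds in
`R'`, `M'`. Then every additive filter `F` in `M` which has a base in `R'` and whose trace `F ∩ R'`
is in `M'` extends to an idempotent ultrafilter in `M`. -/
theorem main (R : Set (Set ℕ+)) (M : Set (Set (Set ℕ+))) (R' : Set (Set ℕ+))
    (M' : Set (Set (Set ℕ+))) (hW : World R M) (hI : Inner R M R' M') (hb : StatementB R M)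
    (ha : StatementA R' M') (F : Set (Set ℕ+)) (hF : IsFilterIn R F)
    (hadd : IsAdditiveIn R M F) (hF' : F ∩ R' ∈ M') (hbase : ∀ A ∈ F, ∃ B ∈ F ∩ R', B ⊆ A) :
    ∃ U ∈ M, IsUltraIn R U ∧ psum R U U = U ∧ F ⊆ U := by
  have hUT := ut R M hW (fun G hG hG1 hG2 => by
    obtain ⟨U, h1, h2, _, h4⟩ := hb G hG hG1 hG2
    exact ⟨U, h1, h2, h4⟩)
  have hfil : IsFilterIn R' (F ∩ R') := by
    refine ⟨fun A hA => hA.2, ⟨hF.univ_mem, hI.univ_mem⟩, ?_, ?_, fun h => hF.empty_notMem h.1⟩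
    · rintro A ⟨h1, h2⟩ B ⟨h3, h4⟩
      exact ⟨hF.inter_mem A h1 B h3, hI.inter A h2 B h4⟩
    · rintro A ⟨h1, _⟩ B hB hAB
      exact ⟨hF.up A h1 B (hI.sub hB) hAB, hB⟩
  have hadd' : IsAdditiveIn R' M' (F ∩ R') := by
    intro V' hV'M hV' hFV' A hA
    obtain ⟨V, hVM, ⟨hV, _⟩, hWV⟩ := hUT _ (hI.gen_mem V' hV'M) (gen_filter hW hI hV'.1)
    have hFV : F ⊆ V := by
      intro C hC
      obtain ⟨B, hB, hBC⟩ := hbase C hC
      exact hWV ⟨hF.sub hC, B, hFV' hB, hBC⟩
    have h1 := (hadd V hVM ⟨hV, ‹_›⟩ hFV hA.1).2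
    have h2 : {n | sh A n ∈ V} = {n | sh A n ∈ V'} := by
      ext n
      simp only [Set.mem_ofPred_eq]
      have hs := hI.shift A hA.2 n
      constructor
      · intro h
        rcases hV'.2 _ hs with h' | h'
        · exact h'
        · exfalso
          have h3 : (sh A n)ᶜ ∈ V := hWV ⟨hI.sub (hI.compl _ hs), _, h', subset_rfl⟩
          have h4 := hV.inter_mem _ h _ h3
          rw [Set.inter_compl_self] at h4
          exact hV.empty_notMem h4
      · intro h
        exact hWV ⟨hI.sub hs, _, h, subset_rfl⟩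
    rw [h2] at h1
    exact ⟨hA.2, h1, hI.slice A hA.2 V' hV'M⟩
  obtain ⟨p, hpM, hp, hpp, hFp⟩ := ha _ hF' hfil hadd'
  have hgM := hI.gen_mem p hpM
  have hidem : gen R p ⊆ psum R (gen R p) (gen R p) := by
    rintro A ⟨hA, B, hB, hBA⟩
    rw [← hpp] at hB
    refine ⟨hA, hW.slice A hA _ hgM, _, hB.2, fun n hn => ?_⟩
    exact ⟨hW.shift A hA n, _, hn, fun m hm => hBA hm⟩
  obtain ⟨U, hUM, hU, hUU, hsub⟩ := hb _ hgM (gen_filter hW hI hp.1) hidem
  refine ⟨U, hUM, hU, hUU, fun A hA => ?_⟩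
  obtain ⟨B, hB, hBA⟩ := hbase A hA
  exact hsub ⟨hF.sub hA, B, hFp hB, hBA⟩

end Pool.Agent.H74.IF
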